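import Pool.Agent.Q255.IC.Stm

/-!
# Project IC of helper255: `S_T3` and `S_RZB`
-/

set_option autoImplicit false

namespace Pool.Agent.Q153.IC

open Filter Topology MeasureTheory
open scoped ENNReal
open Pool.Agent.Q255.IC

lemma pr_pos (k : ℕ) : (0 : ℝ) < pr k := by
  have h : (pr k).Prime := Nat.nth_mem_of_infinite Nat.infinite_setOfPred_prime k
  exact_mod_cast h.pos

lemma pr_one_le (k : ℕ) : (1 : ℝ) ≤ pr k := by
  have h : (pr k).Prime := Nat.nth_mem_of_infinite Nat.infinite_setOfPred_prime k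
  exact_mod_cast h.one_le

lemma pr_mono : Monotone pr := Nat.nth_monotone Nat.infinite_setOfPred_prime

lemma abs_sg (ω : ℕ → Bool) (k : ℕ) : |sg ω k| ≤ 1 := by
  unfold sg
  split_ifs <;> simp

/-- the common part of the two statements -/
lemma main (habel : S_ABEL) (hpz : S_PZ) {N u m : ℝ} (hN : 0 < N) (hu : m ≤ N * u)
    (ω : ℕ → Bool) (H : ∀ κ : ℝ, 0 < κ → ∃ C : ℝ, 0 ≤ C ∧
      ∀ n : ℕ, ∑ k ∈ Finset.range n, (sg ω k + u) ≤ κ * n + C) : RZ (fun _ => N) ω m := by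
  intro ε hε
  obtain ⟨C₁, hC₁⟩ := hpz
  obtain ⟨C, hC0, hC⟩ := H (ε / (2 * N)) (by positivity)
  have hC₁0 : 0 ≤ C₁ := (abs_nonneg _).trans (hC₁ 1 one_pos le_rfl).2
  have e1 : ∀ᶠ h : ℝ in 𝓝[>] 0, 0 < h := eventually_mem_nhdsWithin
  have e2 : ∀ᶠ h : ℝ in 𝓝[>] 0, h ≤ 1 :=
    (eventually_le_nhds (by norm_num : (0 : ℝ) < 1)).filter_mono nhdsWithin_le_nhds
  have e3 : ∀ᶠ h : ℝ in 𝓝[>] 0,
      Real.log h ≤ -(2 / ε * (ε / 2 * C₁ + N * C + N * |u| * C₁)) :=
    Real.tendsto_log_nhdsGT_zero.eventually_le_atBot _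
  filter_upwards [e1, e2, e3] with h h0 h1 h3
  obtain ⟨hs, hb⟩ := hC₁ h h0 h1
  obtain ⟨w, hw⟩ : ∃ w : ℕ → ℝ, ∀ k, w k = (pr k : ℝ) ^ (-1 - h) := ⟨_, fun _ => rfl⟩
  have hweq : (fun k : ℕ => (pr k : ℝ) ^ (-1 - h)) = w := funext fun k => (hw k).symm
  rw [hweq] at hs
  have hS : (∑' k : ℕ, (pr k : ℝ) ^ (-1 - h)) = ∑' k, w k := by rw [← hweq]
  rw [hS] at hb
  have hw0 : ∀ k, 0 ≤ w k := fun k => by rw [hw]; exact Real.rpow_nonneg (pr_pos k).le _
  have hwa : Antitone w := by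
    intro i j hij
    rw [hw, hw]
    exact Real.rpow_le_rpow_of_nonpos (pr_pos i) (by exact_mod_cast pr_mono hij) (by linarith)
  have hw01 : w 0 ≤ 1 := by
    rw [hw]
    exact Real.rpow_le_one_of_one_le_of_nonpos (pr_one_le 0) (by linarith)
  have hbb : ∀ k, |sg ω k + u| ≤ 1 + |u| := fun k =>
    (abs_add_le _ _).trans (by have := abs_sg ω k; linarith)
  have hA := habel (fun k => sg ω k + u) w (1 + |u|) (ε / (2 * N)) C hbb hC0 hwa hw0 hs hC
  have hsb : Summable fun k => (sg ω k + u) * w k := by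
    refine Summable.of_norm_bounded (hs.mul_left (1 + |u|)) fun k => ?_
    rw [norm_mul, Real.norm_eq_abs, Real.norm_eq_abs, abs_of_nonneg (hw0 k)]
    exact mul_le_mul_of_nonneg_right (hbb k) (hw0 k)
  have hDS : DS (fun _ => N) ω h = N * ((∑' k, (sg ω k + u) * w k) - u * ∑' k, w k) := by
    unfold DS
    rw [← tsum_mul_left (a := u), ← hsb.tsum_sub (hs.mul_left u), ← tsum_mul_left]
    refine tsum_congr fun k => ?_
    rw [← hw]
    ring
  obtain ⟨S, hSd⟩ : ∃ S, S = ∑' k, w k := ⟨_, rfl⟩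
  rw [← hSd] at hb hA hDS
  rw [hDS]
  have hlog : Real.log h ≤ 0 := Real.log_nonpos h0.le h1
  obtain ⟨hb1, hb2⟩ := abs_le.mp hb
  have t1 : C * w 0 ≤ C := mul_le_of_le_one_right hC0 hw01
  have t2 : ε / (2 * N) * S ≤ ε / (2 * N) * (C₁ - Real.log h) :=
    mul_le_mul_of_nonneg_left (by linarith) (by positivity)
  have t3 : N * (∑' k, (sg ω k + u) * w k) ≤ N * (ε / (2 * N) * (C₁ - Real.log h) + C) :=
    mul_le_mul_of_nonneg_left (by linarith) hN.le
  have t4 : N * (ε / (2 * N) * (C₁ - Real.log h) + C) = ε / 2 * (C₁ - Real.log h) + N * C := by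
    field_simp
  have t5 : -(N * u) * (S + Real.log h) ≤ N * |u| * C₁ := by
    calc -(N * u) * (S + Real.log h) ≤ |-(N * u) * (S + Real.log h)| := le_abs_self _
      _ = N * |u| * |S + Real.log h| := by
        rw [abs_mul, abs_neg, abs_mul, abs_of_pos hN]
      _ ≤ N * |u| * C₁ := mul_le_mul_of_nonneg_left hb (by positivity)
  have t6 : N * u * Real.log h ≤ m * Real.log h := mul_le_mul_of_nonpos_right hu hlog
  have t7 : ε / 2 * Real.log h ≤ -(ε / 2 * C₁ + N * C + N * |u| * C₁) := by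
    have := mul_le_mul_of_nonneg_left h3 (by positivity : (0 : ℝ) ≤ ε / 2)
    have e : ε / 2 * -(2 / ε * (ε / 2 * C₁ + N * C + N * |u| * C₁)) =
        -(ε / 2 * C₁ + N * C + N * |u| * C₁) := by
      field_simp
    linarith
  nlinarith [t3, t4, t5, t6, t7]

/-- **RZB** -/
theorem rzb (habel : S_ABEL) (hpz : S_PZ) : S_RZB := by
  intro N m C ω hN hC
  refine main habel hpz hN (u := m / N) (by rw [mul_div_cancel₀ _ hN.ne']) ω fun κ hκ => ?_
  have hC0 : 0 ≤ C := by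
    have h := (abs_nonneg _).trans (hC 1)
    simpa using h
  refine ⟨C * (C / κ) ^ 3, by positivity, fun n => ?_⟩
  refine (le_abs_self _).trans ((hC n).trans ?_)
  have hn0 : (0 : ℝ) ≤ n := Nat.cast_nonneg n
  by_cases hc : (n : ℝ) ^ (1 / 4 : ℝ) ≤ C / κ
  · have h1 : (n : ℝ) ^ (3 / 4 : ℝ) ≤ (C / κ) ^ 3 := by
      have e : (n : ℝ) ^ (3 / 4 : ℝ) = ((n : ℝ) ^ (1 / 4 : ℝ)) ^ 3 := by
        rw [← Real.rpow_natCast, ← Real.rpow_mul hn0]
        norm_num
      rw [e]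
      exact pow_le_pow_left₀ (Real.rpow_nonneg hn0 _) hc 3
    have h2 : C * (n : ℝ) ^ (3 / 4 : ℝ) ≤ C * (C / κ) ^ 3 := mul_le_mul_of_nonneg_left h1 hC0
    have h3 : 0 ≤ κ * n := by positivity
    linarith
  · push Not at hc
    have h1 : C ≤ κ * (n : ℝ) ^ (1 / 4 : ℝ) := by
      rw [div_lt_iff₀ hκ] at hc
      linarith
    have h2 : C * (n : ℝ) ^ (3 / 4 : ℝ) ≤ κ * (n : ℝ) ^ (1 / 4 : ℝ) * (n : ℝ) ^ (3 / 4 : ℝ) :=
      mul_le_mul_of_nonneg_right h1 (Real.rpow_nonneg hn0 _)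
    have h3 : κ * (n : ℝ) ^ (1 / 4 : ℝ) * (n : ℝ) ^ (3 / 4 : ℝ) = κ * n := by
      rw [mul_assoc, ← Real.rpow_add_of_nonneg hn0 (by norm_num) (by norm_num)]
      norm_num
    have h4 : 0 ≤ C * (C / κ) ^ 3 := by positivity
    linarith

/-- balanced sequences -/
lemma bal_rz (habel : S_ABEL) (hpz : S_PZ) {N u m : ℝ} (hN : 0 < N) (hu : m ≤ N * u)
    {ω : ℕ → Bool} (h : Bal u ω) : RZ (fun _ => N) ω m := by
  obtain ⟨C, hC⟩ := h
  have hC0 : 0 ≤ C := (abs_nonneg _).trans (hC 0)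
  refine main habel hpz hN hu ω fun κ hκ => ⟨C, hC0, fun n => ?_⟩
  have h1 := (le_abs_self _).trans (hC n)
  have h2 : 0 ≤ κ * n := by positivity
  linarith

lemma dimS_mono {S S' : Set (ℕ → Bool)} (h : S ⊆ S') : dimS S ≤ dimS S' := by
  letI : MetricSpace (ℕ → Bool) := PiNat.metricSpace (E := fun _ => Bool)
  exact dimH_mono h

/-- **T3** -/
theorem t3 (hbal : S_BALQ) (habel : S_ABEL) (hpz : S_PZ) : S_T3 := by
  intro N m hm hmN
  have hN : 0 < N := hm.trans_le hmN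
  rcases hmN.eq_or_lt with rfl | hlt
  · rw [div_self hN.ne']
    norm_num
  · by_contra hcon
    push Not at hcon
    have hu1 : m / N < 1 := (div_lt_one hN).mpr hlt
    have hcont : Continuous fun u : ℝ =>
        ENNReal.ofReal (Real.binEntropy ((1 + u) / 2) / Real.log 2) := by
      refine ENNReal.continuous_ofReal.comp ((Real.binEntropy_continuous.comp ?_).div_const _)
      exact (continuous_const.add continuous_id).div_const _
    have hev := (hcont.tendsto (m / N)).eventually (lt_mem_nhds hcon)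
    obtain ⟨δ, hδ, hball⟩ := Metric.eventually_nhds_iff.mp hev
    obtain ⟨q, hq1, hq2⟩ := exists_rat_btwn (lt_min hu1 (lt_add_of_pos_right (m / N) hδ))
    have hq3 : (q : ℝ) < 1 := hq2.trans_le (min_le_left _ _)
    have hq4 : (q : ℝ) < m / N + δ := hq2.trans_le (min_le_right _ _)
    have hq0 : (0 : ℝ) < q := (div_pos hm hN).trans hq1
    have hq0' : 0 < q := by exact_mod_cast hq0
    have hnum : ((q.num.toNat : ℕ) : ℤ) = q.num := Int.toNat_of_nonneg (Rat.num_nonneg.mpr hq0'.le)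
    have hqe : ((q.num.toNat : ℕ) : ℝ) / (q.den : ℕ) = q := by
      have h1 : (q : ℝ) = (q.num : ℝ) / (q.den : ℝ) := Rat.cast_def q
      have h2 : ((q.num.toNat : ℕ) : ℝ) = (q.num : ℝ) := by
        have h3 := congrArg (fun z : ℤ => (z : ℝ)) hnum
        exact_mod_cast h3
      rw [h2]
      exact h1.symm
    have hle : q.num.toNat ≤ q.den := by
      have h1 : ((q.num.toNat : ℕ) : ℝ) / (q.den : ℕ) ≤ 1 := by rw [hqe]; exact hq3.le
      have h2 : (0 : ℝ) < (q.den : ℕ) := by exact_mod_cast q.den_pos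
      rw [div_le_one h2] at h1
      exact_mod_cast h1
    have hB := hbal q.num.toNat q.den q.den_pos hle
    rw [hqe] at hB
    have hsub : {ω | Bal (q : ℝ) ω} ⊆ {ω | RZ (fun _ => N) ω m} := fun ω hω =>
      bal_rz habel hpz hN (by
        have := (div_lt_iff₀ hN).mp hq1
        linarith) hω
    have hfin := hB.trans (dimS_mono hsub)
    have hd : dist (q : ℝ) (m / N) < δ := by
      rw [Real.dist_eq, abs_of_pos (by linarith)]
      linarith
    exact absurd hfin (not_le.mpr (hball hd))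

end Pool.Agent.Q153.IC
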